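import Pool.Agent.Helper44.GH.Stmts
import Pool.Agent.Helper86.LP.Base

/-! Module ABN: the normalisation. -/

open Finset MeasureTheory Filter Topology Matrix
open scoped ENNReal ContDiff

namespace Pool.Agent.Helper44.GH

open Pool.Agent.Helper44.GF Pool.Agent.Helper44.GN

theorem st_ABN : ST_ABN := by
  intro n m V ρ hρ hV
  have hpd : (TT V V ρ).PosDef := by
    have h := Pool.Agent.Helper86.LP.posDef_form V hV (fun i => Real.log (ρ i))
    have h1 : (fun i => Real.exp (Real.log (ρ i))) = ρ := funext fun i => Real.exp_log (hρ i)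
    rw [h1] at h
    exact h
  obtain ⟨S, hS⟩ := Pool.Agent.Helper86.LP.exists_sq_root hpd.posSemidef
  have hdet : (TT V V ρ).det = S.det ^ 2 := by
    rw [hS, Matrix.det_mul, Matrix.det_transpose]; ring
  have hSdet : S.det ≠ 0 := by
    intro h0
    have h1 := hpd.det_pos
    rw [hdet, h0] at h1
    simp at h1
  have hu : IsUnit S.det := isUnit_iff_ne_zero.2 hSdet
  refine ⟨S⁻¹, ?_, ?_⟩
  · exact (Matrix.isUnit_nonsing_inv_det S hu).ne_zero
  · have h1 : TT (V * S⁻¹) (V * S⁻¹) ρ = (S⁻¹)ᵀ * TT V V ρ * S⁻¹ := by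
      unfold TT
      rw [Matrix.transpose_mul]
      simp only [Matrix.mul_assoc]
    rw [h1, hS]
    have h2 : (S⁻¹)ᵀ * (Sᵀ * S) * S⁻¹ = (S * S⁻¹)ᵀ * (S * S⁻¹) := by
      rw [Matrix.transpose_mul]
      simp only [Matrix.mul_assoc]
    rw [h2, Matrix.mul_nonsing_inv S hu, Matrix.transpose_one, Matrix.one_mul]

end Pool.Agent.Helper44.GH
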