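import Pool.Agent.Helper44.GH.Stmts
import Pool.Agent.Helper37.GF.LIM

/-! Module MMP: positivity of `MM`. -/

open Finset MeasureTheory Filter Topology Matrix
open scoped ENNReal ContDiff

namespace Pool.Agent.Helper44.GH

open Pool.Agent.Helper44.GF Pool.Agent.Helper44.GN

theorem st_MMP : ST_MMP := by
  intro n m Λ a b W ha hc hb hW
  obtain ⟨K, hK, hlow⟩ := lim_low hW
  have hmeas : AEStronglyMeasurable
      (fun t : Fin m → ℝ => Real.exp (-∑ i, Λ ((W.mulVec t i) ^ 2))) volume := by
    apply Continuous.aestronglyMeasurable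
    refine Real.continuous_exp.comp (Continuous.neg ?_)
    refine continuous_finset_sum _ fun i _ => ?_
    refine hc.comp_continuous ?_ fun t => Set.mem_Ici.2 (sq_nonneg _)
    have : Continuous fun t : Fin m → ℝ => W.mulVec t i := by
      unfold Matrix.mulVec dotProduct
      fun_prop
    exact this.pow 2
  have hint : Integrable
      (fun t : Fin m → ℝ => Real.exp (-∑ i, Λ ((W.mulVec t i) ^ 2))) volume := by
    have hg : Integrable (fun t : Fin m → ℝ => Real.exp (n * b) * Real.exp (-(a * K * ‖t‖)))
        volume := (lim_int (by positivity)).const_mul _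
    refine hg.mono' hmeas ?_
    refine Filter.Eventually.of_forall fun t => ?_
    rw [Real.norm_eq_abs, abs_of_pos (Real.exp_pos _), ← Real.exp_add]
    apply Real.exp_le_exp.2
    have h1 : ∑ i, (a * |W.mulVec t i| - b) ≤ ∑ i, Λ ((W.mulVec t i) ^ 2) := by
      refine Finset.sum_le_sum fun i _ => ?_
      have := hb ((W.mulVec t i) ^ 2) (sq_nonneg _)
      rwa [Real.sqrt_sq_eq_abs] at this
    rw [Finset.sum_sub_distrib, ← Finset.mul_sum, Finset.sum_const, Finset.card_univ,
      Fintype.card_fin, nsmul_eq_mul] at h1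
    have h2 := mul_le_mul_of_nonneg_left (hlow t) ha.le
    nlinarith
  unfold MM
  exact integral_exp_pos hint

end Pool.Agent.Helper44.GH
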